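import Pool.Agent.H93.PG.Targets
import Pool.Agent.H93.PF.All

/-!
# Power-free shifts, exponents at least two: points with equal indices are far apart (row ADR)
-/

set_option autoImplicit false

open MeasureTheory Filter Topology Finset Pool.Agent.H93.PF Pool.Agent.H93.PG

namespace Pool.Agent.H60.PG

theorem cnt_add (B : Set ℤ) (a b x : ℤ) (h : a ≤ b) (h' : b ≤ x) :
    cnt B a x = cnt B a b + cnt B b x := by
  classical
  unfold cnt
  rw [← Finset.card_union_of_disjoint]
  · congr 1
    ext j
    simp only [Finset.mem_filter, Finset.mem_Ioc, Finset.mem_union]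
    constructor
    · rintro ⟨⟨h1, h2⟩, h3⟩
      by_cases hj : j ≤ b
      · exact Or.inl ⟨⟨h1, hj⟩, h3⟩
      · exact Or.inr ⟨⟨by omega, h2⟩, h3⟩
    · rintro (⟨⟨h1, h2⟩, h3⟩ | ⟨⟨h1, h2⟩, h3⟩)
      · exact ⟨⟨h1, by omega⟩, h3⟩
      · exact ⟨⟨by omega, h2⟩, h3⟩
  · rw [Finset.disjoint_left]
    intro j hj hj'
    simp only [Finset.mem_filter, Finset.mem_Ioc] at hj hj'
    omega

theorem cnt_pos (B : Set ℤ) (a x p : ℤ) (h : a < p) (h' : p ≤ x) (hp : p ∈ B) :
    1 ≤ cnt B a x := by
  classical
  unfold cnt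
  exact Finset.card_pos.mpr ⟨p, by simp only [Finset.mem_filter, Finset.mem_Ioc]; exact ⟨⟨h, h'⟩, hp⟩⟩

theorem pf_ADR : T_ADR := by
  intro L B c I hS hL hI e C s s' hs hs' hss hIe
  have hSKD : T_SKD := Pool.Agent.H93.PF.All.r_SKD
  have hCNT : T_CNT := Pool.Agent.H93.PF.All.r_CNT
  have claim : ∀ n : ℕ, n ≤ C + 1 → ∀ t t' : ℤ, t ∈ B (e + n) → t ≤ s →
      (∀ x ∈ B (e + n), x ≤ s → x ≤ t) → t' ∈ B (e + n) → t' ≤ s' →
      (∀ x ∈ B (e + n), x ≤ s' → x ≤ t') → t < t' := by
    intro n
    induction n with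
    | zero =>
      intro _ t t' _ ht _ _ _ ht'
      have := ht' s' hs' le_rfl
      omega
    | succ n ih =>
      intro hn t t' h1 h2 h3 h4 h5 h6
      have h7 : t ≤ t' := h6 t h1 (by omega)
      rcases lt_or_eq_of_le h7 with h8 | h8
      · exact h8
      · exfalso
        subst h8
        obtain ⟨v, hv, hvs, hvm⟩ := exists_last (hS.below (e + n)) s
        obtain ⟨v', hv', hvs', hvm'⟩ := exists_last (hS.below (e + n)) s'
        have h9 := ih (by omega) v v' hv hvs hvm hv' hvs' hvm'
        have h10 : s < v' := by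
          by_contra hc
          have := hvm v' hv' (by omega)
          omega
        have e1 := hI (e + n) s t h1 h2 (fun x hx hx' hB => by
          have := h3 x hB hx'
          omega)
        have e2 := hI (e + n) s' t h1 h5 (fun x hx hx' hB => by
          have := h6 x hB hx'
          omega)
        have e3 := hIe (e + n) (by omega) (by omega)
        have e4 := cnt_add (B (e + n)) t s s' h2 hss.le
        have e5 := cnt_pos (B (e + n)) s s' v' h10 hvs' hv'
        omega
  obtain ⟨v, hv, hvs, hvm⟩ := exists_last (hS.below (e + (C + 1))) s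
  obtain ⟨v', hv', hvs', hvm'⟩ := exists_last (hS.below (e + (C + 1))) s'
  have hvv := claim (C + 1) le_rfl v v' hv hvs hvm hv' hvs' hvm'
  have hj1 : e + (C + 1) = (e + C) + 1 := by ring
  rw [hj1] at hv hvm hv' hvm'
  generalize hj : e + C = j at *
  have e1 := hI j s v hv hvs (fun x hx hx' hB => by
    have := hvm x hB hx'
    omega)
  have e2 := hI j s' v' hv' hvs' (fun x hx hx' hB => by
    have := hvm' x hB hx'
    omega)
  have e3 := hIe j (by omega) (by omega)
  obtain ⟨g, hg1, hg2, hN⟩ := hS.next (j + 1) v hv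
  have h7 := seven_gg L j hL
  have hsg : s < v + g := by
    by_contra hc
    have := hvm _ hN.2.1 (by omega)
    have := hN.1
    omega
  have hgv : v + g ≤ v' := by
    by_contra hc
    exact hN.2.2 v' hvv (by omega) hv'
  -- seven points in the gap
  have hvj : v ∈ B j := hS.nest j hv
  have pts : ∀ n : ℕ, ∃ p ∈ B j, v ≤ p ∧ cnt (B j) v p = n ∧ p ≤ v + n * gg L j := by
    intro n
    induction n with
    | zero => exact ⟨v, hvj, le_rfl, (hCNT (B j) v).2.1 v le_rfl, by simp⟩
    | succ n ih =>
      obtain ⟨p, hp, hp1, hp2, hp3⟩ := ih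
      obtain ⟨g', hg1', hg2', hN'⟩ := hS.next j p hp
      refine ⟨p + g', hN'.2.1, by omega, ?_, ?_⟩
      · rw [(hCNT (B j) v).1 p g' hp1 hN', hp2]
      · push_cast
        have : ((n : ℤ) + 1) * (gg L j : ℤ) = n * gg L j + gg L j := by ring
        rw [this]
        omega
  obtain ⟨p, hp, hp1, hp2, hp3⟩ := pts 7
  have hpg : p ≤ v + g := by
    push_cast at hp3
    omega
  have c1 := cnt_add (B j) v p (v + g) hp1 hpg
  have c2 := cnt_add (B j) v s (v + g) hvs hsg.le
  have c3 := cnt_add (B j) s (v + g) s' hsg.le (by omega)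
  have c4 := cnt_add (B j) (v + g) v' s' hgv hvs'
  have c5 : 7 ≤ cnt (B j) s s' := by omega
  obtain ⟨d1, d2, -⟩ := hSKD L B c hS hL j
  obtain ⟨u, hu, hu1, -, hu2⟩ := d2 (s + 1)
  have hus' : u ≤ s' := by
    by_contra hc
    have h0 : cnt (B j) s s' = 0 := by
      classical
      unfold cnt
      rw [Finset.card_eq_zero, Finset.filter_eq_empty_iff]
      intro x hx
      rw [Finset.mem_Ioc] at hx
      exact hu2 x (by omega) (by omega)
    omega
  have c6 := cnt_add (B j) s u s' (by omega) hus'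
  have c7 : cnt (B j) s u ≤ 1 := by
    classical
    unfold cnt
    rw [Finset.card_le_one]
    intro x hx y hy
    simp only [Finset.mem_filter, Finset.mem_Ioc] at hx hy
    have hx' : x = u := by
      by_contra hc
      exact hu2 x (by omega) (by omega) hx.2
    have hy' : y = u := by
      by_contra hc
      exact hu2 y (by omega) (by omega) hy.2
    rw [hx', hy']
  have c8 := (hCNT (B j) u).2.2.2 (nn L j) s' d1 hu hus'
  have c9 : (6 : ℤ) * nn L j ≤ (cnt (B j) u s' : ℤ) * nn L j := by
    apply mul_le_mul_of_nonneg_right _ (by positivity)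
    omega
  omega

end Pool.Agent.H60.PG
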