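import Pool.Agent.H93.PG.Targets
import Pool.Agent.H93.PF.All

/-!
# Power-free shifts, exponents at least two: no long periodic intervals (row NLP)
-/

set_option autoImplicit false

open MeasureTheory Filter Topology Finset Pool.Agent.H93.PF Pool.Agent.H93.PG

namespace Pool.Agent.H60.PG

theorem pf_NLP (hADR : T_ADR) (hIJB : T_IJB) (hSKX : T_SKX) (hIJD : T_IJD) (hLVB : T_LVB)
    (hCCD : T_CCD) : T_NLP := by
  intro Y _ T L D hM y hR
  have hS : Sk L (fun k => ob T (Bk T L D k) y) (fun n => co T L D (zp T n y)) :=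
    Pool.Agent.H93.PF.All.r_SKC Y T L D hM y hR
  have hI : IJ (fun k => ob T (Bk T L D k) y) (fun j n => ij T L D j (zp T n y)) :=
    hIJD Y T L D hM y hR
  have hL2 : 2 ≤ L := hM.two
  have hL : 0 < L := by omega
  have hB : ∀ (j : ℕ) (s : ℤ), ij T L D j (zp T s y) ≤ 39 := fun j s =>
    hIJB L _ _ _ hS hL hI j s
  have dec : ∀ s t : ℤ, cc T L D (zp T s y) = cc T L D (zp T t y) →
      co T L D (zp T s y) = co T L D (zp T t y) ∧
      ij T L D 0 (zp T s y) = ij T L D 0 (zp T t y) ∧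
      ij T L D 1 (zp T s y) = ij T L D 1 (zp T t y) ∧
      ∀ i ≤ 2, ij T L D (lv T L D (zp T s y) + i) (zp T s y) =
        ij T L D (lv T L D (zp T t y) + i) (zp T t y) := by
    intro s t h
    obtain ⟨h1, h2, h3, h4⟩ := (hCCD Y T L D (zp T s y) (zp T t y)).2 h
    rw [min_eq_left (hB _ _), min_eq_left (hB _ _)] at h2
    rw [min_eq_left (hB _ _), min_eq_left (hB _ _)] at h3
    refine ⟨h1, h2, h3, fun i hi => ?_⟩
    have h5 := h4 i hi
    rwa [min_eq_left (hB _ _), min_eq_left (hB _ _)] at h5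
  refine ⟨?_, ?_⟩
  · intro s hs g hN hcc
    obtain ⟨-, h1, h2, -⟩ := dec _ _ hcc
    have h3 := hADR L _ _ _ hS hL hI 0 1 s (s + g) hs hN.2.1 (by have := hN.1; omega)
      (fun j _ hj => by
        have : j = 0 ∨ j = 1 := by omega
        rcases this with rfl | rfl
        · exact h1.symm
        · exact h2.symm)
    obtain ⟨g', -, hg', hN'⟩ := hS.next 0 s hs
    have h4 : g = g' := hN.uniq hN'
    have h5 : nn L (0 + 1) = 14 * L := by simp [nn]
    have h6 : gg L 0 = L + 1 := rfl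
    rw [h5] at h3
    rw [h6] at hg'
    push_cast at h3
    omega
  · intro kv q a b h1 h2 hQ h3 h4
    refine hSKX L _ _ _ hS hL hI kv q a b h1 h2 hQ ?_ h4
    intro j hj ha hb
    obtain ⟨e1, e2, e3, e4⟩ := dec _ _ (h3 j hj ha hb)
    refine ⟨e1, e2, e3, ?_⟩
    intro e he he' heq heq' i hi
    have l1 : lv T L D (zp T j y) = e := hLVB Y T L D _ e he he'
    have l2 : lv T L D (zp T (j + q) y) = e := hLVB Y T L D _ e heq heq'
    have e5 := e4 i hi
    rw [l1, l2] at e5
    exact e5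

end Pool.Agent.H60.PG
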