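import Pool.Agent.H93.PG.Targets
import Pool.Agent.H93.PF.All

/-!
# Power-free shifts, exponents at least two: marker words followed by a piece of a frame (OCR)
-/

set_option autoImplicit false

open MeasureTheory Filter Topology Finset Pool.Agent.H93.PF Pool.Agent.H93.PG

namespace Pool.Agent.H60.PG

/-- the tail does not contain the marker word -/
theorem rt_no_marker {d : ℕ} {m : ℕ → ℕ} (c : CT d m) (a : ℕ)
    (h : ∀ j : ℕ, j < c.t.Y → c.t.rt (a + j) = c.e) : False := by
  obtain ⟨j, hj, hne⟩ := c.t.c2 (c.t.Y + a) (by have := c.t.Y0; omega)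
  apply hne
  unfold xx
  rw [if_neg (by omega), c.ye]
  have : c.t.Y + a + j - c.t.Y = a + j := by omega
  rw [this]
  exact h j hj

theorem pf_OCR (hFRA : T_FRA) : T_OCR := by
  intro d m c D B z col hT x hx
  have hlen := D.fr.len
  have hb0 := D.fr.b0
  have hb1 := D.fr.b1
  have hb2 := D.fr.b2
  have hK2 := D.K2
  have hbig := D.big
  have hY0 := c.t.Y0
  have hL : D.L = D.n + D.N0 := rfl
  obtain ⟨s, hs, hsx, hsm⟩ := exists_last hT.below x
  obtain ⟨g, hg, hN⟩ := hT.next s hs
  have hxg : x < s + g := by
    by_contra hc
    have := hsm _ hN.2.1 (by omega)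
    have := hN.1
    omega
  obtain ⟨hF1, hF2⟩ := hFRA d m c D B z col hT s hs g hN
  obtain ⟨hcol, k, hk, hw⟩ := hT.pp s hs g hN
  have hs'0 : ∀ i : ℕ, i < c.t.Y → z (s + g + i) = c.e := hT.y0 (s + g) hN.2.1
  by_cases hxs : x = s
  · subst hxs
    have hlet : ∀ i : ℕ, i < D.K → z (x + c.t.Y + i) = c.t.rt i := by
      intro i hi
      rcases hg with rfl | rfl
      · exact hT.fs x hs hN i (by omega)
      · exact hT.f1 x hs hN i (by omega)
    refine ⟨fun _ => hs, fun h => ?_⟩
    exfalso
    obtain ⟨a, ha, hne⟩ := D.fr.d2
    apply hne
    rw [← h a ha, ← hlet a ha]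
  · by_cases hxf : x < s + g + c.t.Y - D.n
    · obtain ⟨rfl, hxe⟩ := hF2 x (by omega) hxf hx
      have hlet : ∀ i : ℕ, i < D.K → z (x + c.t.Y + i) = c.t.rt (D.k2 - 1 - i) := by
        intro i hi
        rw [← hT.f3 s hs hN i (by omega)]
        congr 1
        rw [hxe]
        ring
      refine ⟨fun h => ?_, fun _ => ⟨s, hs, hN, hxe⟩⟩
      exfalso
      obtain ⟨a, ha, hne⟩ := D.fr.d2
      apply hne
      rw [← h a ha, ← hlet a ha]
    · -- inside of the content
      have hT1 : T1 c.t D.K (D.pc (col s) k) := by
        have hV := D.cc.mem (col s) k hcol hk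
        unfold VV at hV
        simp only [Finset.mem_filter] at hV
        exact hV.2.2.2.2.2.2.1
      have hwin : ∀ (i : ℕ) (h : i < D.n), z (s + g + c.t.Y - D.n + i) =
          D.pc (col s) k ⟨i, h⟩ := by
        intro i h
        exact congrFun hw ⟨i, h⟩
      by_cases hin : x + c.t.Y + D.K ≤ s + g + c.t.Y
      · -- the letters are in the content
        obtain ⟨i, hi⟩ : ∃ i : ℕ, (i : ℤ) = x + c.t.Y - (s + g + c.t.Y - D.n) :=
          ⟨(x + c.t.Y - (s + g + c.t.Y - D.n)).toNat, by omega⟩
        constructor
        · intro h
          exfalso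
          refine (hT1 i 0 (by omega)).1 ?_
          intro a ha haK
          rw [← hwin (i + a) ha, zero_add, ← h a haK]
          congr 1
          push_cast
          omega
        · intro h
          exfalso
          refine (hT1 i (D.k2 - D.K) (by omega)).2 ?_
          intro a ha haK
          have e1 : D.k2 - D.K + (D.K - 1 - a) = D.k2 - 1 - a := by omega
          rw [← hwin (i + a) ha, e1, ← h a haK]
          congr 1
          push_cast
          omega
      · by_cases hxy : x + c.t.Y ≤ s + g
        · obtain ⟨i, hi⟩ : ∃ i : ℕ, (i : ℤ) = s + g - (x + c.t.Y) :=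
            ⟨(s + g - (x + c.t.Y)).toNat, by omega⟩
          constructor
          · intro h
            exfalso
            apply rt_no_marker c i
            intro j hj
            rw [← h (i + j) (by omega), ← hs'0 j hj]
            congr 1
            push_cast
            omega
          · intro h
            exfalso
            apply rt_no_marker c (D.k2 - 1 - i - (c.t.Y - 1))
            intro j hj
            have e1 : D.k2 - 1 - i - (c.t.Y - 1) + j = D.k2 - 1 - (i + (c.t.Y - 1 - j)) := by
              omega
            rw [e1, ← h (i + (c.t.Y - 1 - j)) (by omega), ← hs'0 (c.t.Y - 1 - j) (by omega)]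
            congr 1
            push_cast
            omega
        · obtain ⟨i, hi⟩ : ∃ i : ℕ, (i : ℤ) = x + c.t.Y - (s + g) :=
            ⟨(x + c.t.Y - (s + g)).toNat, by omega⟩
          have e2 : z (x + c.t.Y) = c.e := by
            rw [← hs'0 i (by omega)]
            congr 1
            omega
          constructor
          · intro h
            exfalso
            apply c.e0
            rw [← h 0 (by omega), ← e2]
            congr 1
            simp
          · intro h
            exfalso
            apply D.fr.l2
            have h0 := h 0 (by omega)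
            have e3 : D.k2 - 1 - 0 = D.k2 - 1 := by omega
            rw [e3] at h0
            rw [← h0, ← e2]
            congr 1
            simp

end Pool.Agent.H60.PG
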