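import Pool.Agent.H93.PG.Targets
import Pool.Agent.H93.PF.All

/-!
# Power-free shifts, exponents at least two: tiled sequences are power-free (row PF3)
-/

set_option autoImplicit false

open MeasureTheory Filter Topology Finset Pool.Agent.H93.PF Pool.Agent.H93.PG

namespace Pool.Agent.H60.PG

theorem pf_PF3 : T_PF3 := by
  intro d β plus N tc B z col hβ hTT hcol hlong i q m' hq hF
  have hmm : mm β plus q ≤ m' :=
    ((Pool.Agent.H93.PF.All.r_MMF β plus q m' hβ hq).1).1 hF
  suffices h : ∃ j : ℤ, i ≤ j ∧ j + q < i + mm β plus q ∧ z (j + q) ≠ z j by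
    obtain ⟨j, h1, h2, h3⟩ := h
    exact ⟨j, h1, by omega, h3⟩
  by_cases hqs : q < tc.L + tc.kv
  · exact tc.small B z col hTT hcol q hq hqs i
  by_contra hno
  push Not at hno
  have hRk := tc.Rk
  have hkL := tc.kL
  have hR0 := tc.R0
  have hm2 := tc.m2 q hq
  have hmark : ∀ s ∈ B, ∀ x : ℕ, x < tc.R → z (s + x) = tc.M x := by
    intro s hs x hx
    obtain ⟨g, hg, hN⟩ := hTT.next s hs
    obtain ⟨hc1, k, hk, hw⟩ := hTT.cont s hs g hN
    have hxg : x < g := by omega
    have h1 := congrFun hw ⟨x, hxg⟩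
    have h2 := tc.mkr g hg (col s) k hc1 hk x hxg hx
    rw [h2] at h1
    exact h1
  have hshift : ∀ j : ℤ, i ≤ j → j + q < i + mm β plus q - tc.kv + 1 → ∀ x : ℕ, x < tc.kv →
      z (j + q + x) = z (j + x) := by
    intro j hj hj' x hx
    have := hno (j + x) (by omega) (by omega)
    rw [← this]
    congr 1
    ring
  have hQI : QI B q i (i + mm β plus q - tc.kv + 1) := by
    intro j hj hj'
    constructor
    · intro hB
      apply tc.uniq B z col hTT
      intro x hx
      rw [hshift j hj hj' x (by omega)]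
      exact hmark j hB x hx
    · intro hB
      apply tc.uniq B z col hTT
      intro x hx
      rw [← hshift j hj hj' x (by omega)]
      exact hmark (j + q) hB x hx
  refine hlong q i (i + mm β plus q - tc.kv + 1) (by omega) hQI ?_ (by omega)
  intro j hj ha hb
  have hjq : j + q ∈ B := (hQI j ha hb).1 hj
  obtain ⟨g, hg, hN⟩ := hTT.next j hj
  obtain ⟨g', hg', hN'⟩ := hTT.next (j + q) hjq
  obtain ⟨hc1, k, hk, hw⟩ := hTT.cont j hj g hN
  obtain ⟨hc1', k', hk', hw'⟩ := hTT.cont (j + q) hjq g' hN'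
  refine tc.vis g' g hg' hg (col (j + q)) k' (col j) k hc1' hk' hc1 hk ?_
  intro x hx hx' hxk
  rw [← hw, ← hw']
  exact hshift j ha hb x hxk

end Pool.Agent.H60.PG
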