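import Pool.Agent.H93.PG.Targets
import Pool.Agent.H93.PF.All

/-!
# Power-free shifts, exponents at least two: from the tiles to `Tz` (row TZW)
-/

set_option autoImplicit false

open MeasureTheory Filter Topology Finset Pool.Agent.H93.PF Pool.Agent.H93.PG

namespace Pool.Agent.H60.PG

theorem W_marker {d : ℕ} {m : ℕ → ℕ} {c : CT d m} (D : TD c) (g a k : ℕ) (x : Fin g)
    (h : (x : ℕ) < c.t.Y) : D.W g a k x = c.e := by
  unfold TD.W
  rw [if_pos h]

theorem W_short1 {d : ℕ} {m : ℕ → ℕ} {c : CT d m} (D : TD c) (g a k : ℕ) (x : Fin g)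
    (hg : g = D.L) (h : c.t.Y ≤ (x : ℕ)) (h' : (x : ℕ) < c.t.Y + D.N0) :
    D.W g a k x = c.t.rt (x - c.t.Y) := by
  unfold TD.W
  rw [if_neg (by omega), if_pos hg, if_pos h']

theorem W_short2 {d : ℕ} {m : ℕ → ℕ} {c : CT d m} (D : TD c) (g a k : ℕ) (x : Fin g)
    (hg : g = D.L) (h : c.t.Y + D.N0 ≤ (x : ℕ)) (h' : (x : ℕ) - (c.t.Y + D.N0) < D.n) :
    D.W g a k x = D.pc a k ⟨x - (c.t.Y + D.N0), h'⟩ := by
  unfold TD.W
  rw [if_neg (by omega), if_pos hg, if_neg (by omega), dif_pos h']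

theorem W_long1 {d : ℕ} {m : ℕ → ℕ} {c : CT d m} (D : TD c) (g a k : ℕ) (x : Fin g)
    (hg : g ≠ D.L) (h : c.t.Y ≤ (x : ℕ)) (h' : (x : ℕ) < c.t.Y + D.k1) :
    D.W g a k x = c.t.rt (x - c.t.Y) := by
  unfold TD.W
  rw [if_neg (by omega), if_neg hg, if_pos h']

theorem W_long2 {d : ℕ} {m : ℕ → ℕ} {c : CT d m} (D : TD c) (g a k : ℕ) (x : Fin g)
    (hg : g ≠ D.L) (h : c.t.Y + D.k1 ≤ (x : ℕ)) (h' : (x : ℕ) < 2 * c.t.Y + D.k1) :
    D.W g a k x = c.e := by
  unfold TD.W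
  rw [if_neg (by omega), if_neg hg, if_neg (by omega), if_pos h']

theorem W_long3 {d : ℕ} {m : ℕ → ℕ} {c : CT d m} (D : TD c) (g a k : ℕ) (x : Fin g)
    (hg : g ≠ D.L) (h : 2 * c.t.Y + D.k1 ≤ (x : ℕ)) (h' : (x : ℕ) < c.t.Y + D.N0 + 1) :
    D.W g a k x = c.t.rt (D.k2 - 1 - (x - (2 * c.t.Y + D.k1))) := by
  unfold TD.W
  rw [if_neg (by omega), if_neg hg, if_neg (by omega), if_neg (by omega), if_pos h']

theorem W_long4 {d : ℕ} {m : ℕ → ℕ} {c : CT d m} (D : TD c) (g a k : ℕ) (x : Fin g)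
    (hg : g ≠ D.L) (h : c.t.Y + D.N0 + 1 ≤ (x : ℕ))
    (h' : (x : ℕ) - (c.t.Y + D.N0 + 1) < D.n) :
    D.W g a k x = D.pc a k ⟨x - (c.t.Y + D.N0 + 1), h'⟩ := by
  have hlen := D.fr.len
  unfold TD.W
  rw [if_neg (by omega), if_neg hg, if_neg (by omega), if_neg (by omega), if_neg (by omega),
    dif_pos h']

theorem pf_TZW : T_TZW := by
  intro d m c D B z col hTT
  have hlen := D.fr.len
  have hbig := D.big
  have hY0 := c.t.Y0
  have hL : D.L = D.n + D.N0 := rfl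
  have key : ∀ s ∈ B, ∀ g : ℕ, Nx B s g → (g = D.L ∨ g = D.L + 1) ∧ col s < D.N ∧
      ∃ k < D.Q, ∀ (x : ℕ) (h : x < g), z (s + x) = D.W g (col s) k ⟨x, h⟩ := by
    intro s hs g hN
    obtain ⟨g', hg', hN'⟩ := hTT.next s hs
    have e := hN.uniq hN'
    subst e
    obtain ⟨h1, k, hk, hw⟩ := hTT.cont s hs g hN
    refine ⟨hg', h1, k, hk, ?_⟩
    intro x hx
    have := congrFun hw ⟨x, hx⟩
    exact this
  have hy0 : ∀ s ∈ B, ∀ i : ℕ, i < c.t.Y → z (s + i) = c.e := by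
    intro s hs i hi
    obtain ⟨g, hg, hN⟩ := hTT.next s hs
    obtain ⟨_, _, k, _, hw⟩ := key s hs g hN
    rw [hw i (by omega)]
    exact W_marker D g (col s) k _ hi
  refine ⟨hTT.below, hTT.next, hy0, ?_, ?_, ?_, ?_, ?_⟩
  · intro s hs hN i hi
    obtain ⟨_, _, k, _, hw⟩ := key s hs _ hN
    have h1 := hw (c.t.Y + i) (by omega)
    rw [W_short1 D _ _ _ _ rfl (by simp) (by simp; omega)] at h1
    have e1 : s + ((c.t.Y + i : ℕ) : ℤ) = s + c.t.Y + i := by push_cast; ring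
    rw [e1] at h1
    rw [h1]
    congr 1
    simp
  · intro s hs hN i hi
    obtain ⟨_, _, k, _, hw⟩ := key s hs _ hN
    have h1 := hw (c.t.Y + i) (by omega)
    rw [W_long1 D _ _ _ _ (by omega) (by simp) (by simp; omega)] at h1
    have e1 : s + ((c.t.Y + i : ℕ) : ℤ) = s + c.t.Y + i := by push_cast; ring
    rw [e1] at h1
    rw [h1]
    congr 1
    simp
  · intro s hs hN i hi
    obtain ⟨_, _, k, _, hw⟩ := key s hs _ hN
    have h1 := hw (c.t.Y + D.k1 + i) (by omega)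
    rw [W_long2 D _ _ _ _ (by omega) (by simp) (by simp; omega)] at h1
    have e1 : s + ((c.t.Y + D.k1 + i : ℕ) : ℤ) = s + c.t.Y + D.k1 + i := by push_cast; ring
    rw [e1] at h1
    exact h1
  · intro s hs hN i hi
    obtain ⟨_, _, k, _, hw⟩ := key s hs _ hN
    have h1 := hw (2 * c.t.Y + D.k1 + i) (by omega)
    rw [W_long3 D _ _ _ _ (by omega) (by simp) (by simp; omega)] at h1
    have e1 : s + ((2 * c.t.Y + D.k1 + i : ℕ) : ℤ) = s + 2 * c.t.Y + D.k1 + i := by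
      push_cast; ring
    rw [e1] at h1
    rw [h1]
    congr 1
    simp
  · intro s hs g hN
    obtain ⟨hg, hcol, k, hk, hw⟩ := key s hs g hN
    refine ⟨hcol, k, hk, ?_⟩
    funext i
    have hi := i.2
    have hV := D.cc.mem (col s) k hcol hk
    have hEn : En c.t (D.pc (col s) k) := by
      unfold VV at hV
      simp only [Finset.mem_filter] at hV
      exact hV.2.2.2.1
    show z (s + g + c.t.Y - D.n + ((i : ℕ) : ℤ)) = D.pc (col s) k i
    by_cases hi2 : (i : ℕ) < D.n - c.t.Y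
    · rcases hg with hg | hg
      · have h1 := hw (c.t.Y + D.N0 + i) (by omega)
        rw [W_short2 D _ _ _ _ hg (by simp) (by simp)] at h1
        have e1 : s + ((c.t.Y + D.N0 + (i : ℕ) : ℕ) : ℤ) = s + g + c.t.Y - D.n + ((i : ℕ) : ℤ) := by
          rw [hg, hL]; push_cast; ring
        rw [e1] at h1
        rw [h1]
        congr 1
        apply Fin.ext
        simp
      · have h1 := hw (c.t.Y + D.N0 + 1 + i) (by omega)
        rw [W_long4 D _ _ _ _ (by omega) (by simp) (by simp)] at h1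
        have e1 : s + ((c.t.Y + D.N0 + 1 + (i : ℕ) : ℕ) : ℤ) =
            s + g + c.t.Y - D.n + ((i : ℕ) : ℤ) := by
          rw [hg, hL]; push_cast; ring
        rw [e1] at h1
        rw [h1]
        congr 1
        apply Fin.ext
        simp
    · obtain ⟨hE1, hE2⟩ := hEn
      have h1 := hE2 ((i : ℕ) - (D.n - c.t.Y)) (by omega) (by omega)
      rw [c.ye] at h1
      have h2 : (⟨D.n - c.t.Y + ((i : ℕ) - (D.n - c.t.Y)), by omega⟩ : Fin D.n) = i := by
        apply Fin.ext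
        show D.n - c.t.Y + ((i : ℕ) - (D.n - c.t.Y)) = i
        omega
      rw [h2] at h1
      rw [h1]
      have h3 := hy0 (s + g) hN.2.1 ((i : ℕ) - (D.n - c.t.Y)) (by omega)
      rw [← h3]
      congr 1
      omega

end Pool.Agent.H60.PG
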