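import Pool.Agent.H93.PG.Targets
import Pool.Agent.H93.PF.All

/-!
# Power-free shifts, exponents at least two: the coded sequences are tiled (row ZT3)
-/

set_option autoImplicit false

open MeasureTheory Filter Topology Finset Pool.Agent.H93.PF Pool.Agent.H93.PG

namespace Pool.Agent.H60.PG

theorem z0_eq {Y : Type} [MeasurableSpace Y] {T : Y ≃ᵐ Y} {d : ℕ} {m : ℕ → ℕ}
    (c : Cy T d m) (y w : Y) (a g : ℕ) (h1 : la T c.B0 y = a) (h2 : zp T (-(a : ℤ)) y = w)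
    (h3 : na T c.B0 w = g) :
    c.z0 y = if h : a < g then c.tc.W g (c.cl w) (c.ms w) ⟨a, h⟩ else c.tc.M 0 := by
  subst h1
  subst h2
  subst h3
  rfl

theorem pf_ZT3 (hCCD : T_CCD) : T_ZT3 := by
  intro Y _ T d m c y hR
  have hLNB : T_LNB := Pool.Agent.H93.PF.All.r_LNB
  have hBKF : T_BKF := Pool.Agent.H93.PF.All.r_BKF
  obtain ⟨_, hbelow, _, hnext⟩ := hBKF Y T c.tc.L c.D c.mkD y hR
  have hbe : ∀ i : ℤ, ∃ s ∈ ob T c.B0 y, s ≤ i := hbelow 0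
  have hne : ∀ s ∈ ob T c.B0 y, ∃ g : ℕ, (g = c.tc.L ∨ g = c.tc.L + 1) ∧
      Nx (ob T c.B0 y) s g := hnext
  have hna : ∀ s ∈ ob T c.B0 y, ∀ g : ℕ, Nx (ob T c.B0 y) s g → na T c.B0 (zp T s y) = g := by
    intro s hs g hN
    have h1 := ((hLNB Y T c.B0 y).2.2.2 s g hs hN s le_rfl (by have := hN.1; omega)).2
    omega
  have key : ∀ s ∈ ob T c.B0 y, ∀ g : ℕ, Nx (ob T c.B0 y) s g → ∀ a : ℕ, (h : a < g) →
      c.phi y (s + a) = c.tc.W g (c.cl (zp T s y)) (c.ms (zp T s y)) ⟨a, h⟩ := by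
    intro s hs g hN a ha
    have h1 := ((hLNB Y T c.B0 y).2.2.2 s g hs hN (s + a) (by omega) (by omega)).1
    have h2 := z0_eq c (zp T (s + a) y) (zp T s y) a g (by omega)
      (by rw [← zp_add]; congr 1; omega) (hna s hs g hN)
    rw [dif_pos ha] at h2
    exact h2
  have hwin : ∀ s ∈ ob T c.B0 y, ∀ g : ℕ, Nx (ob T c.B0 y) s g →
      win (c.phi y) s g = c.tc.W g (c.cl (zp T s y)) (c.ms (zp T s y)) := by
    intro s hs g hN
    funext j
    exact key s hs g hN (j : ℕ) j.2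
  have hms : ∀ s ∈ ob T c.B0 y, c.ms (zp T s y) < c.tc.Q ∧ c.cl (zp T s y) < NC := by
    intro s hs
    refine ⟨?_, (hCCD Y T c.tc.L c.D (zp T s y) (zp T s y)).1⟩
    exact c.msb (zp T s y) (hR.shift s) hs
  refine ⟨⟨hbe, hne, ?_⟩, fun s hs g hN => ⟨hwin s hs g hN, hms s hs⟩⟩
  intro s hs g hN
  exact ⟨(hms s hs).2, c.ms (zp T s y), (hms s hs).1, hwin s hs g hN⟩

end Pool.Agent.H60.PG
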